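import Mathlib
import Pool.Agent.H33.SAPM.Main

/-!
# Primes attained by `m_n` only at `n = p - 1` (Erdős 1979)

`m_n` is the least positive integer `m` such that `n` divides `φ(m)`.
-/

set_option autoImplicit false

namespace Pool.Agent.Results.MP_078383_nt.ResidueClasses

/-- `m_n = m`: the least positive integer whose totient is divisible by `n` is `m`. -/
def Attains (n m : ℕ) : Prop :=
  IsLeast {k : ℕ | 1 ≤ k ∧ n ∣ Nat.totient k} m

/-- `p` is singly attained: the only positive integer `n` with `m_n = p` is `n = p - 1`. -/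
def SinglyAttained (p : ℕ) : Prop :=
  {n : ℕ | 1 ≤ n ∧ Attains n p} = {p - 1}

/-- For every `M ≥ 1` there are infinitely many singly attained primes `p ≡ 1 (mod M)`. -/
theorem result (M : ℕ) (hM : 1 ≤ M) :
    {p : ℕ | p.Prime ∧ SinglyAttained p ∧ p ≡ 1 [MOD M]}.Infinite := by
  rw [Set.infinite_iff_exists_gt]
  intro N
  obtain ⟨p, hN, hp, hMp, h⟩ := SAPM.main M hM N
  refine ⟨p, ⟨hp, ?_, ((Nat.modEq_iff_dvd' hp.one_lt.le).2 hMp).symm⟩, hN⟩
  ext n
  constructor
  · rintro ⟨hn, hl⟩
    exact (h n hn).1 hl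
  · intro hn
    have hn' : n = p - 1 := hn
    have h2 := hp.two_le
    have h1 : 1 ≤ n := by omega
    exact ⟨h1, (h n h1).2 hn'⟩

end Pool.Agent.Results.MP_078383_nt.ResidueClasses
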